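import Pool.Agent.LibMA34.UMA
import Pool.Agent.LibMA34.DomA
import Pool.Agent.LibMA34.DomB
import Pool.Agent.LibMA34.NonSm

namespace Pool.Agent.Results.MP_d973e7_an.InteriorSingularity

open LibMA34 Filter Topology
open scoped ContDiff

theorem Om_hyperconvex : IsHyperconvex Om := by
  refine ⟨fun p => Ud 0 p - 1 / 16, ?_, fun z hz => by have := hz.2.2; linarith, ?_⟩
  · exact psh_sub_const (psh_mono (fun p hp => hp.1) U0_psh) _
  · intro c hc
    obtain ⟨K, hK, hKO, h⟩ := Om_exhaust (c := c + 1 / 16) (by linarith)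
    exact ⟨K, hK, hKO, fun z hz hzc => h z hz (by linarith)⟩

theorem Om_boundary (a : Fin 2 → ℂ) (ha : a ∈ frontier Om) :
    Tendsto (fun p => Ud 0 p - 1 / 16) (𝓝[Om] a) (𝓝 0) := by
  have haO : a ∉ Om := by
    rw [Om_isOpen.frontier_eq] at ha; exact ha.2
  rw [Metric.tendsto_nhds]
  intro ε hε
  obtain ⟨K, hK, hKO, h⟩ := Om_exhaust (c := 1 / 16 - ε / 2) (by linarith)
  have h1 : Kᶜ ∈ 𝓝[Om] a :=
    mem_nhdsWithin_of_mem_nhds (hK.isClosed.isOpen_compl.mem_nhds fun hx => haO (hKO hx))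
  filter_upwards [h1, self_mem_nhdsWithin] with p hp hpO
  have h2 : 1 / 16 - ε / 2 ≤ Ud 0 p := by
    by_contra hcon
    exact hp (h p hpO (not_le.mp hcon))
  have h3 := hpO.2.2
  rw [Real.dist_eq, abs_lt]
  constructor <;> linarith

/-- The counterexample: a bounded hyperconvex domain in `ℂ²` and a continuous plurisubharmonic
function with zero boundary values and `(dd^c u)² = dV` that is not smooth: there is a point of the
domain at which it is not Hölder continuous with any exponent. -/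
theorem result :
    ∃ (Ω : Set (Fin 2 → ℂ)) (u : (Fin 2 → ℂ) → ℝ), IsOpen Ω ∧ IsConnected Ω ∧
      Bornology.IsBounded Ω ∧ IsHyperconvex Ω ∧ PshOn Ω u ∧
      (∀ a ∈ frontier Ω, Tendsto u (𝓝[Ω] a) (𝓝 0)) ∧ HasMongeAmpere Ω u (fun _ => 1) ∧
      ¬ ContDiffOn ℝ ∞ u Ω ∧
      ∃ a ∈ Ω, ∀ α > (0 : ℝ), ∀ C r : ℝ, 0 < r →
        ∃ p ∈ Ω, ‖p - a‖ < r ∧ C * ‖p - a‖ ^ α < |u p - u a| := by
  have hbad : ∃ a ∈ Om, ∀ α > (0 : ℝ), ∀ C r : ℝ, 0 < r →
      ∃ p ∈ Om, ‖p - a‖ < r ∧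
        C * ‖p - a‖ ^ α < |(Ud 0 p - 1 / 16) - (Ud 0 a - 1 / 16)| := by
    set w : ℂ := ((Real.exp (1 / 8) : ℝ) : ℂ) with hwdef
    have hwn : ‖w‖ = Real.exp (1 / 8) := by
      rw [hwdef, Complex.norm_real, Real.norm_eq_abs, abs_of_pos (Real.exp_pos _)]
    have hw : 1 < ‖w‖ := by rw [hwn]; exact Real.one_lt_exp_iff.mpr (by norm_num)
    have hw1 : ‖w‖ < Real.exp (1 / 4) := by
      rw [hwn]; exact Real.exp_lt_exp.mpr (by norm_num)
    have haO : ![0, w] ∈ Om := mem_Om hw hw1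
    refine ⟨![0, w], haO, ?_⟩
    intro α hα C r hr
    obtain ⟨s, hs, hsO⟩ := Metric.isOpen_iff.mp Om_isOpen _ haO
    obtain ⟨z, hz, hzC⟩ := not_hoelder hw
      (hw1.le.trans (Real.exp_le_exp.mpr (by norm_num))) hα C (lt_min hr hs)
    have hnorm : ‖![z, w] - ![0, w]‖ = ‖z‖ := by
      have : ![z, w] - ![0, w] = ![z, 0] := by
        ext i; fin_cases i <;> simp
      rw [this]
      apply le_antisymm
      · rw [pi_norm_le_iff_of_nonneg (norm_nonneg z)]
        intro i; fin_cases i <;> simp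
      · exact norm_le_pi_norm ![z, 0] 0
    refine ⟨![z, w], hsO ?_, ?_, ?_⟩
    · rw [Metric.mem_ball, dist_eq_norm, hnorm]
      exact hz.trans_le (min_le_right _ _)
    · rw [hnorm]; exact hz.trans_le (min_le_left _ _)
    · rw [hnorm]
      have : (Ud 0 ![z, w] - 1 / 16) - (Ud 0 ![0, w] - 1 / 16) = Ud 0 ![z, w] - Ud 0 ![0, w] := by
        ring
      rw [this]; exact hzC
  refine ⟨Om, fun p => Ud 0 p - 1 / 16, Om_isOpen, Om_isConnected, Om_bounded, Om_hyperconvex,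
    psh_sub_const (psh_mono (fun p hp => hp.1) U0_psh) _, Om_boundary,
    U_hasMongeAmpere (fun p hp => hp.1) _, ?_, hbad⟩
  intro hsm
  obtain ⟨a, ha, hbad⟩ := hbad
  have hd : DifferentiableAt ℝ (fun p => Ud 0 p - 1 / 16) a :=
    (hsm.contDiffAt (Om_isOpen.mem_nhds ha)).differentiableAt (by simp)
  have hO := hd.hasFDerivAt.isBigO_sub
  obtain ⟨C, hC⟩ := hO.bound
  obtain ⟨r, hr, hrC⟩ := Metric.eventually_nhds_iff.mp hC
  obtain ⟨p, hp, hpr, hpC⟩ := hbad 1 one_pos C r hr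
  have := hrC (y := p) (by rwa [dist_eq_norm])
  rw [Real.norm_eq_abs] at this
  rw [Real.rpow_one] at hpC
  linarith

end Pool.Agent.Results.MP_d973e7_an.InteriorSingularity
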